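import Pool.Agent.ZAB.Fin

/-!
MP_c04892_lc. The universal sentences true in the ring of cyclotomic integers modulo `p`.

A clause (file `Pool/Agent/ZAB/Lang.lean`) is a pair of a finite list `F` of integer polynomials and a
finite list of pairs `(d, C)`, `d` an integer polynomial, `C` a finite list of integer polynomials. It
stands for the sentence `for all x: if f(x) = 0 for all f in F then for some pair (d, C) of the list the
element d(x) lies in the ideal generated by the c(x), c in C` (`C` empty: `d(x) = 0`; `C = [c]`: `c(x)`
divides `d(x)`; the empty list of pairs: `not all f(x) are 0`).

The theorem: the clause is true in the quotient of the ring of all cyclotomic integers by `p` if and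
only if `1` is in the ideal `(F)` of the polynomial ring over the field with `p` elements, or some `d`
is integral over the ideal `(F, C)` of that ring.
-/

set_option autoImplicit false

namespace Pool.Agent.Results.MP_c04892_lc.Criterion

open Pool.Agent.ZAB

theorem result (p : ℕ) (hp : p.Prime) (c : Clause) :
    Holds (ZabMod p) c ↔ (idlR (ZMod p) c.1 = ⊤ ∨
      ∃ d ∈ c.2, IntegralOver (idlR (ZMod p) (c.1 ++ d.2)) (Pol.ev MvPolynomial.X d.1)) :=
  criterion p hp c

end Pool.Agent.Results.MP_c04892_lc.Criterion
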