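import Pool.Agent.ZAB.Bool1

/-!
MP_c04892_lc, Q1. One algorithm decides, for each prime `p` and each Boolean combination of universal
sentences, whether it is true in the ring of cyclotomic integers modulo `p`.

A clause (file `Pool/Agent/ZAB/Lang.lean`) is a pair of a finite list `F` of integer polynomials and a
finite list of pairs `(d, C)`, `d` an integer polynomial, `C` a finite list of integer polynomials. It
stands for the sentence `for all x: if f(x) = 0 for all f in F then for some pair (d, C) of the list the
element d(x) lies in the ideal generated by the c(x), c in C`. With `C` empty these are the universal
sentences in conjunctive normal form of the language of rings, one disjunction at a time. `Comb` is the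
type of the finite conjunctions of finite disjunctions of clauses and negated clauses.
-/

set_option autoImplicit false

namespace Pool.Agent.Results.MP_c04892_lc.DecideEach

open Pool.Agent.ZAB

theorem result : ComputablePred fun a : ℕ × Comb => a.1.Prime ∧ HoldsB (ZabMod a.1) a.2 :=
  decidable_comb

end Pool.Agent.Results.MP_c04892_lc.DecideEach
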