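import Pool.Agent.ZAB.Fin

/-!
MP_c04892_lc, Q2. Each universal sentence is true in the ring of cyclotomic integers modulo `p` for all
but finitely many primes `p` or false for all but finitely many, and which of the two is decided over
the field of rational numbers.

A clause (file `Pool/Agent/ZAB/Lang.lean`) is a pair of a finite list `F` of integer polynomials and a
finite list of pairs `(d, C)`, `d` an integer polynomial, `C` a finite list of integer polynomials. It
stands for the sentence `for all x: if f(x) = 0 for all f in F then for some pair (d, C) of the list the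
element d(x) lies in the ideal generated by the c(x), c in C`.
-/

set_option autoImplicit false

namespace Pool.Agent.Results.MP_c04892_lc.ZeroOne

open Pool.Agent.ZAB

theorem result (c : Clause) :
    ((idlR ℚ c.1 = ⊤ ∨ ∃ d ∈ c.2, IntegralOver (idlR ℚ (c.1 ++ d.2)) (Pol.ev MvPolynomial.X d.1)) →
      {p : ℕ | p.Prime ∧ ¬ Holds (ZabMod p) c}.Finite) ∧
    (¬ (idlR ℚ c.1 = ⊤ ∨ ∃ d ∈ c.2, IntegralOver (idlR ℚ (c.1 ++ d.2)) (Pol.ev MvPolynomial.X d.1)) →
      {p : ℕ | p.Prime ∧ Holds (ZabMod p) c}.Finite) :=
  zero_one c

end Pool.Agent.Results.MP_c04892_lc.ZeroOne
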